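import Mathlib

/-!
Core facts for the failure of the large deviation upper bound with the independent (arcsine)
Cramer rate function for lacunary cosine sums whose frequencies grow at most exponentially.
-/

set_option autoImplicit false
open Filter Topology MeasureTheory Real

namespace Pool.Agent.LacunaryLD

/-- `∫_0^1 exp (l (cos 2πt - 1)) dt → 0` as `l → ∞`. -/
lemma tendsto_integral_exp :
    Tendsto (fun l : ℕ => ∫ t in (0 : ℝ)..1, Real.exp ((l : ℝ) * (Real.cos (2 * π * t) - 1)))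
      atTop (𝓝 0) := by
  have h := intervalIntegral.tendsto_integral_filter_of_dominated_convergence (μ := volume)
    (a := (0 : ℝ)) (b := 1) (l := (atTop : Filter ℕ))
    (F := fun (l : ℕ) t => Real.exp ((l : ℝ) * (Real.cos (2 * π * t) - 1)))
    (f := fun _ => (0 : ℝ)) (fun _ => (1 : ℝ)) ?_ ?_ ?_ ?_
  · simpa using h
  · refine Eventually.of_forall fun l => ?_
    exact (Continuous.aestronglyMeasurable (by fun_prop))
  · refine Eventually.of_forall fun l => Eventually.of_forall fun t _ => ?_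
    rw [Real.norm_eq_abs, abs_of_pos (Real.exp_pos _)]
    apply Real.exp_le_one_iff.mpr
    have := Real.cos_le_one (2 * π * t)
    have hl : (0 : ℝ) ≤ l := Nat.cast_nonneg l
    nlinarith
  · exact intervalIntegrable_const
  · have h1 : ∀ᵐ t : ℝ ∂volume, t ≠ 1 := by
      simp [ae_iff]
    filter_upwards [h1] with t ht1 ht
    rw [Set.uIoc_of_le zero_le_one] at ht
    have ht0 : 0 < t := ht.1
    have ht2 : t < 1 := lt_of_le_of_ne ht.2 ht1
    have hcos : Real.cos (2 * π * t) < 1 := by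
      refine lt_of_le_of_ne (Real.cos_le_one _) ?_
      intro hc
      rw [Real.cos_eq_one_iff] at hc
      obtain ⟨m, hm⟩ := hc
      have hpi : (0 : ℝ) < 2 * π := by positivity
      have hmt : (m : ℝ) = t := by
        have : (m : ℝ) * (2 * π) = t * (2 * π) := by rw [hm]; ring
        exact mul_right_cancel₀ hpi.ne' this
      have h3 : (0 : ℝ) < (m : ℝ) := by rw [hmt]; exact ht0
      have h4 : (m : ℝ) < 1 := by rw [hmt]; exact ht2
      have h5 : 0 < m := by exact_mod_cast h3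
      have h6 : m < 1 := by exact_mod_cast h4
      omega
    have hneg : Real.cos (2 * π * t) - 1 < 0 := by linarith
    have h7 : Tendsto (fun l : ℕ => (l : ℝ) * (Real.cos (2 * π * t) - 1)) atTop atBot :=
      Tendsto.atTop_mul_const_of_neg hneg tendsto_natCast_atTop_atTop
    exact Real.tendsto_exp_atBot.comp h7

/-- The exponential moment integral factorises. -/
lemma integral_factor (l : ℝ) :
    ∫ t in (0 : ℝ)..1, Real.exp (l * (Real.cos (2 * π * t) - 1))
      = Real.exp (-l) * ∫ t in (0 : ℝ)..1, Real.exp (l * Real.cos (2 * π * t)) := by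
  rw [← intervalIntegral.integral_const_mul]
  congr 1
  ext t
  rw [← Real.exp_add]
  congr 1
  ring

lemma integral_pos (l : ℝ) : 0 < ∫ t in (0 : ℝ)..1, Real.exp (l * Real.cos (2 * π * t)) := by
  apply intervalIntegral.intervalIntegral_pos_of_pos_on
  · exact (Continuous.intervalIntegrable (by fun_prop) _ _)
  · intro t _
    exact Real.exp_pos _
  · exact zero_lt_one

/-- For every `M` there is `l > 0` with `l - Λ(l) ≥ M`. -/
lemma exists_large (M : ℝ) : ∃ l : ℝ, 0 < l ∧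
    M ≤ l - Real.log (∫ t in (0 : ℝ)..1, Real.exp (l * Real.cos (2 * π * t))) := by
  have h := tendsto_integral_exp
  have h1 : ∀ᶠ l : ℕ in atTop,
      ∫ t in (0 : ℝ)..1, Real.exp ((l : ℝ) * (Real.cos (2 * π * t) - 1)) < Real.exp (-M) :=
    h.eventually (gt_mem_nhds (Real.exp_pos _))
  obtain ⟨l, hl, hl0⟩ := (h1.and (eventually_gt_atTop 0)).exists
  refine ⟨l, by exact_mod_cast hl0, ?_⟩
  rw [integral_factor] at hl
  have hp := integral_pos (l : ℝ)
  have h2 := Real.log_lt_log (by positivity) hl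
  rw [Real.log_mul (Real.exp_pos _).ne' hp.ne', Real.log_exp, Real.log_exp] at h2
  linarith

/-- Near `0` the averages are close to `1`. -/
lemma average_ge (a : ℕ → ℕ) (n : ℕ) (hn : 0 < n) (δ R : ℝ) (hδ : 0 < δ) (hδ2 : δ ≤ 1 / 2)
    (hR : 0 < R) (ha : ∀ k < n, (a k : ℝ) ≤ R) (ω : ℝ) (h0 : 0 ≤ ω) (h1 : ω ≤ δ / R) :
    Real.cos (2 * π * δ) ≤
      (∑ k ∈ Finset.range n, Real.cos (2 * π * (a k : ℝ) * ω)) / (n : ℝ) := by
  have hn' : (0 : ℝ) < n := by exact_mod_cast hn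
  rw [le_div_iff₀ hn']
  have h2 : ∀ k ∈ Finset.range n, Real.cos (2 * π * δ) ≤ Real.cos (2 * π * (a k : ℝ) * ω) := by
    intro k hk
    have hk' := ha k (Finset.mem_range.mp hk)
    have hak : (0 : ℝ) ≤ a k := Nat.cast_nonneg _
    have h3 : (a k : ℝ) * ω ≤ δ := by
      calc (a k : ℝ) * ω ≤ R * (δ / R) := mul_le_mul hk' h1 h0 hR.le
        _ = δ := by field_simp
    have h4 : 0 ≤ (a k : ℝ) * ω := mul_nonneg hak h0
    have hpi := Real.pi_pos
    apply Real.cos_le_cos_of_nonneg_of_le_pi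
    · have : 2 * π * (a k : ℝ) * ω = 2 * π * ((a k : ℝ) * ω) := by ring
      rw [this]; positivity
    · nlinarith
    · nlinarith
  have h5 := Finset.sum_le_sum h2
  simp only [Finset.sum_const, Finset.card_range, nsmul_eq_mul] at h5
  linarith

/-- Volume lower bound. -/
lemma volume_ge (a : ℕ → ℕ) (n : ℕ) (hn : 0 < n) (δ R c : ℝ) (hδ : 0 < δ) (hδ2 : δ ≤ 1 / 2)
    (hR : 1 ≤ R) (ha : ∀ k < n, (a k : ℝ) ≤ R) (hc : c ≤ Real.cos (2 * π * δ)) :
    ENNReal.ofReal (δ / R) ≤ volume (Set.Icc (0 : ℝ) 1 ∩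
      {ω : ℝ | (∑ k ∈ Finset.range n, Real.cos (2 * π * (a k : ℝ) * ω)) / (n : ℝ)
        ∈ Set.Ici c}) := by
  have hR0 : (0 : ℝ) < R := by linarith
  have h1 : Set.Icc (0 : ℝ) (δ / R) ⊆ (Set.Icc (0 : ℝ) 1 ∩
      {ω : ℝ | (∑ k ∈ Finset.range n, Real.cos (2 * π * (a k : ℝ) * ω)) / (n : ℝ)
        ∈ Set.Ici c}) := by
    intro ω hω
    refine ⟨⟨hω.1, ?_⟩, ?_⟩
    · have : δ / R ≤ 1 := by
        rw [div_le_one hR0]; linarith
      linarith [hω.2]
    · exact hc.trans (average_ge a n hn δ R hδ hδ2 hR0 ha ω hω.1 hω.2)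
  calc ENNReal.ofReal (δ / R) = volume (Set.Icc (0 : ℝ) (δ / R)) := by
        rw [Real.volume_Icc, sub_zero]
    _ ≤ _ := measure_mono h1

/-- **Core**: if infinitely often all the first `n` frequencies are at most `K ^ n`, then the
large deviation upper bound at speed `n` with the independent rate function fails for some closed
half line. -/
theorem upper_bound_fails (a : ℕ → ℕ) (K : ℝ)
    (hK : ∃ᶠ n : ℕ in atTop, ∀ k < n, (a k : ℝ) ≤ K ^ n) :
    ∃ F : Set ℝ, IsClosed F ∧ ¬ (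
      limsup (fun n : ℕ => ((((n : ℝ)⁻¹ : ℝ)) : EReal) *
              ENNReal.log (volume (Set.Icc (0 : ℝ) 1 ∩
                {ω : ℝ | (∑ k ∈ Finset.range n, Real.cos (2 * π * (a k : ℝ) * ω)) / (n : ℝ) ∈ F})))
            atTop
          ≤ - ⨅ x ∈ F, ⨆ l : ℝ,
              (((l * x - Real.log (∫ t in (0 : ℝ)..1, Real.exp (l * Real.cos (2 * π * t)))) : ℝ)
                : EReal)) := by
  -- replace `K` by `L = max |K| 1`
  set L : ℝ := max |K| 1 with hL
  have hL1 : 1 ≤ L := le_max_right _ _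
  have hL0 : 0 < L := by linarith
  have hK' : ∃ᶠ n : ℕ in atTop, ∀ k < n, (a k : ℝ) ≤ L ^ n := by
    refine hK.mono fun n hn k hk => (hn k hk).trans ?_
    calc K ^ n ≤ |K ^ n| := le_abs_self _
      _ = |K| ^ n := abs_pow _ _
      _ ≤ L ^ n := pow_le_pow_left₀ (abs_nonneg _) (le_max_left _ _) n
  obtain ⟨l, hl0, hl⟩ := exists_large (Real.log L + 2)
  -- choose `δ`
  have hcont : Tendsto (fun δ : ℝ => Real.cos (2 * π * δ)) (𝓝 0) (𝓝 1) := by
    have : Continuous (fun δ : ℝ => Real.cos (2 * π * δ)) := by fun_prop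
    simpa using this.tendsto 0
  have hc1 : 1 - 1 / (2 * l) < 1 := by
    have : 0 < 1 / (2 * l) := by positivity
    linarith
  have hev : ∀ᶠ δ : ℝ in 𝓝[>] 0, 1 - 1 / (2 * l) < Real.cos (2 * π * δ) ∧ δ ≤ 1 / 2 ∧ 0 < δ := by
    have e1 : ∀ᶠ δ : ℝ in 𝓝[>] 0, 1 - 1 / (2 * l) < Real.cos (2 * π * δ) :=
      (hcont.mono_left nhdsWithin_le_nhds).eventually (lt_mem_nhds hc1)
    have e2 : ∀ᶠ δ : ℝ in 𝓝[>] 0, δ < 1 / 2 :=
      nhdsWithin_le_nhds (gt_mem_nhds (by norm_num))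
    have e3 : ∀ᶠ δ : ℝ in 𝓝[>] 0, 0 < δ := eventually_mem_nhdsWithin
    filter_upwards [e1, e2, e3] with δ h1 h2 h3
    exact ⟨h1, h2.le, h3⟩
  obtain ⟨δ, hδc, hδ2, hδ0⟩ := hev.exists
  set c : ℝ := 1 - 1 / (2 * l) with hc
  refine ⟨Set.Ici c, isClosed_Ici, ?_⟩
  intro hub
  -- the right side is at most `-(log L + 3/2)`
  have hinf : ((Real.log L + 3 / 2 : ℝ) : EReal) ≤ ⨅ x ∈ Set.Ici c, ⨆ l : ℝ,
      (((l * x - Real.log (∫ t in (0 : ℝ)..1, Real.exp (l * Real.cos (2 * π * t)))) : ℝ)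
        : EReal) := by
    refine le_iInf₂ fun x hx => ?_
    refine le_iSup_of_le l ?_
    rw [EReal.coe_le_coe_iff]
    have hx' : c ≤ x := hx
    have h1 : l * c ≤ l * x := mul_le_mul_of_nonneg_left hx' hl0.le
    have h2 : l * c = l - 1 / 2 := by
      rw [hc]; field_simp
    linarith
  have hrhs : - (⨅ x ∈ Set.Ici c, ⨆ l : ℝ,
      (((l * x - Real.log (∫ t in (0 : ℝ)..1, Real.exp (l * Real.cos (2 * π * t)))) : ℝ)
        : EReal)) ≤ ((-(Real.log L + 3 / 2) : ℝ) : EReal) := by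
    rw [EReal.coe_neg]
    exact EReal.neg_le_neg_iff.mpr hinf
  -- the left side is at least `-(log L) - 1/2`
  have hlhs : ((-(Real.log L) - 1 / 2 : ℝ) : EReal) ≤ limsup (fun n : ℕ =>
      ((((n : ℝ)⁻¹ : ℝ)) : EReal) * ENNReal.log (volume (Set.Icc (0 : ℝ) 1 ∩
        {ω : ℝ | (∑ k ∈ Finset.range n, Real.cos (2 * π * (a k : ℝ) * ω)) / (n : ℝ)
          ∈ Set.Ici c}))) atTop := by
    apply le_limsup_of_frequently_le
    · have hlim : Tendsto (fun n : ℕ => (n : ℝ)⁻¹ * Real.log δ) atTop (𝓝 0) := by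
        have := (tendsto_inv_atTop_nhds_zero_nat (𝕜 := ℝ)).mul_const (Real.log δ)
        simpa using this
      have hev2 : ∀ᶠ n : ℕ in atTop, -(1 / 2 : ℝ) < (n : ℝ)⁻¹ * Real.log δ :=
        hlim.eventually (lt_mem_nhds (by norm_num))
      have hev3 := hev2.and (eventually_gt_atTop 0)
      refine (hK'.and_eventually hev3).mono ?_
      rintro n ⟨hn, hn2, hn0⟩
      have hLn : 1 ≤ L ^ n := one_le_pow₀ hL1
      have hvol := volume_ge a n hn0 δ (L ^ n) c hδ0 hδ2 hLn hn hδc.le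
      have hlog := ENNReal.log_le_log hvol
      have hpos : 0 < δ / L ^ n := by positivity
      have hn' : (0 : ℝ) < n := by exact_mod_cast hn0
      rw [ENNReal.log_ofReal, if_neg (not_le.mpr hpos)] at hlog
      have hmul : ((((n : ℝ)⁻¹ : ℝ)) : EReal) * ((Real.log (δ / L ^ n) : ℝ) : EReal) ≤
          ((((n : ℝ)⁻¹ : ℝ)) : EReal) * ENNReal.log (volume (Set.Icc (0 : ℝ) 1 ∩
        {ω : ℝ | (∑ k ∈ Finset.range n, Real.cos (2 * π * (a k : ℝ) * ω)) / (n : ℝ)
          ∈ Set.Ici c})) := by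
        apply mul_le_mul_of_nonneg_left hlog
        exact EReal.coe_nonneg.mpr (by positivity)
      refine le_trans ?_ hmul
      rw [← EReal.coe_mul, EReal.coe_le_coe_iff]
      rw [Real.log_div hδ0.ne' (by positivity), Real.log_pow, mul_sub]
      have h8 : (n : ℝ)⁻¹ * ((n : ℝ) * Real.log L) = Real.log L := by
        field_simp
      rw [h8]
      linarith
    · exact isBoundedUnder_of ⟨⊤, fun _ => le_top⟩
  have hfinal := hlhs.trans (hub.trans hrhs)
  rw [EReal.coe_le_coe_iff] at hfinal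
  linarith

/-- If `a (k+1) / a k → η` with `η > 0` then `a k ≤ K ^ n` for all `k < n`, all large `n`. -/
lemma growth (a : ℕ → ℕ) (η : ℝ) (ha : ∀ k, 0 < a k)
    (hη : Tendsto (fun k : ℕ => (a (k + 1) : ℝ) / (a k : ℝ)) atTop (𝓝 η)) :
    ∃ K : ℝ, ∀ᶠ n : ℕ in atTop, ∀ k < n, (a k : ℝ) ≤ K ^ n := by
  -- the ratios are bounded by some `B ≥ 1`
  obtain ⟨B, hB⟩ := hη.bddAbove_range
  set D : ℝ := max (max B 1) (a 0 : ℝ) with hD
  have hD1 : 1 ≤ D := (le_max_right B 1).trans (le_max_left _ _)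
  have hDa : (a 0 : ℝ) ≤ D := le_max_right _ _
  have hDB : B ≤ D := (le_max_left B 1).trans (le_max_left _ _)
  have h1 : ∀ k, (a k : ℝ) ≤ D ^ (k + 1) := by
    intro k
    induction k with
    | zero => simpa using hDa
    | succ k ih =>
      have hk : (0 : ℝ) < a k := by exact_mod_cast ha k
      have h2 : (a (k + 1) : ℝ) / (a k : ℝ) ≤ D := (hB ⟨k, rfl⟩).trans hDB
      rw [div_le_iff₀ hk] at h2
      calc (a (k + 1) : ℝ) ≤ D * (a k : ℝ) := h2
        _ ≤ D * D ^ (k + 1) := mul_le_mul_of_nonneg_left ih (by linarith)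
        _ = D ^ (k + 1 + 1) := by ring
  refine ⟨D, Eventually.of_forall fun n k hk => (h1 k).trans ?_⟩
  exact pow_le_pow_right₀ hD1 hk

end Pool.Agent.LacunaryLD
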